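import Pool.Agent.Lib.MP_b06be4_an.Data

/-!
# MP_b06be4_an : a lower bound for the Riesz 2-energy on the sphere, for every `N`

For every `N ≥ 2` and all distinct unit vectors `x_1, …, x_N ∈ ℝ³`,
`∑_{i ≠ j} |x_i - x_j|⁻² ≥ (1/4) N² log N - 0.087 N²`.
-/

open Real

namespace Pool.Agent.Results.MP_b06be4_an.LowerBound087

open Pool.Agent.Lib.MP_b06be4_an

lemma log_bound : Real.log (84539 / 2000) ≤ 3744422 / 1000000 := by
  have h1 : (5:ℝ) * Real.log (84539 / 2000) = 27 * Real.log 2 +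
      Real.log ((84539 / 2000) ^ 5 / 2 ^ 27) := by
    rw [Real.log_div (x := (84539 / 2000 : ℝ) ^ 5) (y := 2 ^ 27) (by norm_num) (by norm_num),
      Real.log_pow, Real.log_pow]
    push_cast
    ring
  have h2 : Real.log ((84539 / 2000) ^ 5 / 2 ^ 27) ≤ (84539 / 2000) ^ 5 / 2 ^ 27 - 1 :=
    Real.log_le_sub_one_of_pos (by norm_num)
  have h3 := Real.log_two_lt_d9
  have h4 : ((84539 / 2000 : ℝ) ^ 5 / 2 ^ 27 - 1) ≤ 538 / 100000 := by norm_num
  linarith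

theorem result (N : ℕ) (hN : 2 ≤ N) (x : Fin N → EuclideanSpace ℝ (Fin 3))
    (hinj : Function.Injective x) (hx : ∀ i, ‖x i‖ = 1) :
    (1 / 4 : ℝ) * (N:ℝ) ^ 2 * Real.log N - (87 / 1000 : ℝ) * (N:ℝ) ^ 2 ≤
      ∑ i, ∑ j, if i = j then (0:ℝ) else 1 / ‖x i - x j‖ ^ 2 := by
  have h := energy_ge 18 rho sd Td continuous_sd hasDerivAt_Td Td_zero sd_le HH_rho RR_nonneg
    S_bounds.1 (by omega : 1 ≤ N) x hx hinj
  refine le_trans ?_ h
  have h1 : Real.log (1 + sd 1) ≤ Real.log (84539 / 2000) :=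
    Real.log_le_log S_bounds.1 S_bounds.2
  have h2 := log_bound
  have h3 := T_bound
  have h4 : (-(348 / 1000) : ℝ) ≤ Td 1 - 1 - Real.log (1 + sd 1) := by
    norm_num at h3 ⊢
    linarith
  have h5 : (0:ℝ) ≤ (N:ℝ) ^ 2 / 4 := by positivity
  nlinarith [mul_le_mul_of_nonneg_left h4 h5]

end Pool.Agent.Results.MP_b06be4_an.LowerBound087
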