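import Pool.Agent.Lib.MP_b06be4_an.Lim.Final
import Pool.Agent.Lib.MP_b06be4_an.UpperSeries
import Pool.Agent.Lib.MP_b06be4_an.KC.Stieltjes
import Pool.Agent.Results.MP_b06be4_an.LowerBound087

/-!
# MP_b06be4_an : existence of the `N²` coefficient

The minimal Riesz `2`-energy of `N` points of the unit sphere of `ℝ³` is
`(1/4) N² log N + L N² + o(N²)` for a constant `L` with `-0.087 ≤ L ≤ C`, where
`C = (1/4) (γ - log (2√3π)) + √3/(4π) (γ₁(2/3) - γ₁(1/3))` (`= -0.08576…`) is the constant of the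
conjecture, with the Stieltjes constants given as in the frozen statement.  Moreover the energy is
at least `(1/4) N² log N + L N² - A N^(11/6)`.
-/

open Real Filter Topology

namespace Pool.Agent.Results.MP_b06be4_an.LimitExists

open Pool.Agent.Lib.MP_b06be4_an.Lim Pool.Agent.Lib.MP_b06be4_an.Upper
open Pool.Agent.Lib.MP_b06be4_an.KC

private theorem cc_eq (N : ℕ) (hN : 1 ≤ N) :
    cc N = (emin N - (1 / 4 : ℝ) * (N : ℝ) ^ 2 * Real.log N) / (N : ℝ) ^ 2 := by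
  have hN0 : (0 : ℝ) < N := by exact_mod_cast hN
  rw [cc]
  field_simp

private theorem cc_ge (N : ℕ) (hN : 2 ≤ N) : -(87 / 1000 : ℝ) ≤ cc N := by
  have hN0 : (0 : ℝ) < N := by
    have : 0 < N := by omega
    exact_mod_cast this
  have h : (1 / 4 : ℝ) * (N : ℝ) ^ 2 * Real.log N - (87 / 1000 : ℝ) * (N : ℝ) ^ 2 ≤ emin N := by
    apply le_csInf
    · obtain ⟨x, hinj, hx⟩ := exists_config N
      exact ⟨_, x, hinj, hx, rfl⟩
    · rintro E ⟨x, hinj, hx, rfl⟩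
      exact LowerBound087.result N hN x hinj hx
  rw [cc_eq N (by omega), le_div_iff₀ (by positivity)]
  linarith

private theorem cc_le {ε : ℝ} (hε : 0 < ε) : ∀ᶠ N : ℕ in atTop, cc N ≤ hexC + ε := by
  obtain ⟨N₀, hN₀⟩ := upper_series ε hε
  filter_upwards [eventually_ge_atTop N₀, eventually_ge_atTop 1] with N h1 h2
  obtain ⟨x, hinj, hx, hE⟩ := hN₀ N h1
  have hN0 : (0 : ℝ) < N := by exact_mod_cast h2
  have h3 : emin N ≤ (1 / 4 : ℝ) * (N : ℝ) ^ 2 * Real.log N + (hexC + ε) * (N : ℝ) ^ 2 :=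
    (emin_le hinj hx).trans hE
  rw [cc_eq N h2, div_le_iff₀ (by positivity)]
  linarith

private theorem exists_B : ∃ B : ℝ, 0 ≤ B ∧
    ∀ N : ℕ, 1 ≤ N → emin N / (N : ℝ) ^ 2 ≤ B + 1 / 4 * Real.log N := by
  obtain ⟨N₀, hN₀⟩ := eventually_atTop.1 (cc_le (zero_lt_one))
  obtain ⟨B₁, hB₁⟩ := (Finset.image cc (Finset.range N₀)).bddAbove
  refine ⟨max 0 (max B₁ (hexC + 1)), le_max_left _ _, fun N _ => ?_⟩
  have h1 : cc N ≤ max 0 (max B₁ (hexC + 1)) := by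
    by_cases h : N₀ ≤ N
    · exact (hN₀ N h).trans ((le_max_right _ _).trans (le_max_right _ _))
    · push Not at h
      have h2 : cc N ≤ B₁ := hB₁ (by
        simp only [Finset.coe_image, Finset.coe_range, Set.mem_image, Set.mem_Iio]
        exact ⟨N, h, rfl⟩)
      exact h2.trans ((le_max_left _ _).trans (le_max_right _ _))
  rw [cc] at h1
  linarith

theorem result :
    ∃ c₁ c₂ : ℂ,
      Tendsto
        (fun s : ℂ => deriv (fun z : ℂ => HurwitzZeta.hurwitzZeta ((1/3 : ℝ) : UnitAddCircle) z -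
          1 / (z - 1)) s)
        (𝓝[≠] (1 : ℂ)) (𝓝 (-c₁)) ∧
      Tendsto
        (fun s : ℂ => deriv (fun z : ℂ => HurwitzZeta.hurwitzZeta ((2/3 : ℝ) : UnitAddCircle) z -
          1 / (z - 1)) s)
        (𝓝[≠] (1 : ℂ)) (𝓝 (-c₂)) ∧
      ∃ L : ℝ,
        -(87 / 1000 : ℝ) ≤ L ∧
        L ≤ (1 / 4 : ℝ) * (Real.eulerMascheroniConstant - Real.log (2 * Real.sqrt 3 * π)) +
          Real.sqrt 3 / (4 * π) * (c₂.re - c₁.re) ∧
        Tendsto (fun N : ℕ => (sInf {E : ℝ | ∃ x : Fin N → EuclideanSpace ℝ (Fin 3),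
            Function.Injective x ∧ (∀ i, ‖x i‖ = 1) ∧
            E = ∑ i, ∑ j, if i = j then (0 : ℝ) else 1 / ‖x i - x j‖ ^ 2} -
              (1 / 4 : ℝ) * (N : ℝ) ^ 2 * Real.log N) / (N : ℝ) ^ 2) atTop (𝓝 L) ∧
        ∃ A : ℝ, ∀ N : ℕ, 2 ≤ N →
          (1 / 4 : ℝ) * (N : ℝ) ^ 2 * Real.log N + L * (N : ℝ) ^ 2 - A * (N : ℝ) ^ (11 / 6 : ℝ) ≤
            sInf {E : ℝ | ∃ x : Fin N → EuclideanSpace ℝ (Fin 3),
              Function.Injective x ∧ (∀ i, ‖x i‖ = 1) ∧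
              E = ∑ i, ∑ j, if i = j then (0 : ℝ) else 1 / ‖x i - x j‖ ^ 2} := by
  obtain ⟨c₁, hc1⟩ := exists_stieltjes ((1/3 : ℝ) : UnitAddCircle)
  obtain ⟨c₂, hc2⟩ := exists_stieltjes ((2/3 : ℝ) : UnitAddCircle)
  refine ⟨c₁, c₂, hc1, hc2, ?_⟩
  rw [hex_const hc1 hc2]
  obtain ⟨B, hB0, hB⟩ := exists_B
  set g : ℕ → ℝ := fun M => cc (M + 2) + (B + 21) * ((M + 2 : ℕ) : ℝ) ^ (-(1 / 6) : ℝ) with hg
  have hpos : ∀ M : ℕ, 0 ≤ (B + 21) * ((M + 2 : ℕ) : ℝ) ^ (-(1 / 6) : ℝ) := by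
    intro M
    positivity
  have hgb : BddBelow (Set.range g) := by
    refine ⟨-(87 / 1000 : ℝ), ?_⟩
    rintro y ⟨M, rfl⟩
    have h1 := cc_ge (M + 2) (by omega)
    have h2 := hpos M
    simp only [hg]
    linarith
  set L : ℝ := ⨅ M, g M with hL
  have hLg : ∀ M, L ≤ g M := fun M => ciInf_le hgb M
  have hstep : ∀ M : ℕ, ∀ ε : ℝ, 0 < ε → ∀ᶠ N : ℕ in atTop, cc N ≤ g M + ε := by
    intro M ε hε
    obtain ⟨k, hk, δ, η, hδ0, hδ1, hη, herr⟩ := errT_le (M := M + 2) (by omega) hB0 hB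
    filter_upwards [step (M := M + 2) (by omega) hk hδ0 hδ1 hη hB0 hB hε] with N hN
    simp only [hg]
    linarith
  have hlow : ∀ N : ℕ, 2 ≤ N → L - (B + 21) * (N : ℝ) ^ (-(1 / 6) : ℝ) ≤ cc N := by
    intro N hN
    have h1 := hLg (N - 2)
    simp only [hg] at h1
    rw [Nat.sub_add_cancel hN] at h1
    linarith
  have hlim0 : Tendsto (fun N : ℕ => (B + 21) * (N : ℝ) ^ (-(1 / 6) : ℝ)) atTop (𝓝 0) := by
    have h1 : Tendsto (fun N : ℕ => (N : ℝ) ^ (-(1 / 6) : ℝ)) atTop (𝓝 0) :=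
      (tendsto_rpow_neg_atTop (by norm_num)).comp tendsto_natCast_atTop_atTop
    simpa using h1.const_mul (B + 21)
  have hlim : Tendsto cc atTop (𝓝 L) := by
    rw [Metric.tendsto_atTop]
    intro ε hε
    obtain ⟨M, hM⟩ := exists_lt_of_ciInf_lt (show (⨅ M, g M) < L + ε / 2 by
      rw [← hL]
      linarith)
    have h1 := hstep M (ε / 2) (by linarith)
    have h2 : ∀ᶠ N : ℕ in atTop, (B + 21) * (N : ℝ) ^ (-(1 / 6) : ℝ) < ε :=
      hlim0.eventually_lt_const hε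
    have h3 : ∀ᶠ N : ℕ in atTop, dist (cc N) L < ε := by
      filter_upwards [h1, h2, eventually_ge_atTop 2] with N h4 h5 h6
      have h7 := hlow N h6
      rw [Real.dist_eq, abs_lt]
      constructor <;> linarith
    exact eventually_atTop.1 h3
  refine ⟨L, ?_, ?_, ?_, B + 21, ?_⟩
  · exact ge_of_tendsto hlim ((eventually_ge_atTop 2).mono fun N hN => cc_ge N hN)
  · change L ≤ hexC
    apply le_of_forall_pos_le_add
    intro ε hε
    exact le_of_tendsto hlim (cc_le hε)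
  · refine hlim.congr' ?_
    filter_upwards [eventually_ge_atTop 1] with N hN
    exact cc_eq N hN
  · intro N hN
    have h1 := hlow N hN
    have hN0 : (0 : ℝ) < N := by
      have : 0 < N := by omega
      exact_mod_cast this
    have h2 : (N : ℝ) ^ (11 / 6 : ℝ) = (N : ℝ) ^ 2 * (N : ℝ) ^ (-(1 / 6) : ℝ) := by
      rw [← Real.rpow_natCast (N : ℝ) 2, ← Real.rpow_add hN0]
      norm_num
    change _ ≤ emin N
    have h3 : emin N = (N : ℝ) ^ 2 * (cc N + 1 / 4 * Real.log N) := by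
      rw [cc]
      field_simp
      ring
    rw [h2, h3]
    have h4 := mul_le_mul_of_nonneg_left h1 (show (0 : ℝ) ≤ (N : ℝ) ^ 2 by positivity)
    linarith

end Pool.Agent.Results.MP_b06be4_an.LimitExists
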