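import Pool.Agent.Lib.MP_b06be4_an.UpperSeries
import Pool.Agent.Lib.MP_b06be4_an.KC.Stieltjes

/-!
# MP_b06be4_an : the upper bound with the conjectured constant in the `N²` term

For every `ε > 0` and every large `N` there are `N` distinct unit vectors in `ℝ³` with
`∑_{i ≠ j} |x_i - x_j|⁻² ≤ (1/4) N² log N + (C + ε) N²`, where
`C = (1/4) (γ - log (2√3π)) + √3/(4π) (γ₁(2/3) - γ₁(1/3))` is the constant of the conjecture;
the Stieltjes constants `c₁ = γ₁(1/3)` and `c₂ = γ₁(2/3)` are given, as in the frozen statement,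
by the limits at `s = 1` of the derivative of `ζ(s, a) - 1/(s - 1)`.
-/

open Real Filter Topology

namespace Pool.Agent.Results.MP_b06be4_an.UpperBoundConjectured

open Pool.Agent.Lib.MP_b06be4_an.Upper Pool.Agent.Lib.MP_b06be4_an.KC

theorem result :
    ∃ c₁ c₂ : ℂ,
      Tendsto
        (fun s : ℂ => deriv (fun z : ℂ => HurwitzZeta.hurwitzZeta ((1/3 : ℝ) : UnitAddCircle) z -
          1 / (z - 1)) s)
        (𝓝[≠] (1 : ℂ)) (𝓝 (-c₁)) ∧
      Tendsto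
        (fun s : ℂ => deriv (fun z : ℂ => HurwitzZeta.hurwitzZeta ((2/3 : ℝ) : UnitAddCircle) z -
          1 / (z - 1)) s)
        (𝓝[≠] (1 : ℂ)) (𝓝 (-c₂)) ∧
      ∀ ε : ℝ, 0 < ε → ∃ N₀ : ℕ, ∀ N ≥ N₀,
        ∃ x : Fin N → EuclideanSpace ℝ (Fin 3), Function.Injective x ∧ (∀ i, ‖x i‖ = 1) ∧
          ∑ i, ∑ j, (if i = j then (0:ℝ) else 1 / ‖x i - x j‖ ^ 2) ≤
            (1 / 4 : ℝ) * (N:ℝ) ^ 2 * Real.log N +
              ((1 / 4 : ℝ) * (Real.eulerMascheroniConstant - Real.log (2 * Real.sqrt 3 * π)) +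
                Real.sqrt 3 / (4 * π) * (c₂.re - c₁.re) + ε) * (N:ℝ) ^ 2 := by
  obtain ⟨c₁, h1⟩ := exists_stieltjes ((1/3 : ℝ) : UnitAddCircle)
  obtain ⟨c₂, h2⟩ := exists_stieltjes ((2/3 : ℝ) : UnitAddCircle)
  refine ⟨c₁, c₂, h1, h2, ?_⟩
  rw [hex_const h1 h2]
  exact upper_series

end Pool.Agent.Results.MP_b06be4_an.UpperBoundConjectured
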